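import Mathlib
import Pool.Agent.W454.PrimLimit

/-!
# A quasigroup with primitive autoparatopism group that is isotopic to no group and no Paige loop

There is a quasigroup operation on the natural numbers whose autoparatopism group acts primitively
on the cells of its Latin square, and which is isotopic neither to a group nor to a Paige loop; it
is not even isotopic to a Moufang loop.

The Latin square is the union of a chain of finite partial Latin squares (written as nets: points
of three colours, and cells). The chain starts with a partial Latin square with eight cells that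
lies in no Moufang loop (a violation of a Bol closure condition). In each step all undefined pairs
are completed freely, and then a copy of the whole partial square is glued along every closed
partial isomorphism (which may rotate the three colours). So closed partial isomorphisms of the
stages extend to automorphisms of the union. Any two pairs of disjoint cells that are free from
each other at some stage are conjugate, and an invariant equivalence relation that relates two
different cells relates two free cells, and so all cells.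
-/

set_option autoImplicit false

universe u

namespace Pool.Agent.Results.MP_b62fd5_al.InfinitePrimitive

/-- `m` is a quasigroup operation: each of the equations `a x = b` and `y a = b` has exactly one
solution. -/
def IsQuasigroup {T : Type*} (m : T → T → T) : Prop :=
  ∀ a b : T, (∃! x, m a x = b) ∧ (∃! y, m y a = b)

/-- The Latin square of `m`: the set of the cells `(x, y, m x y)`. -/
def LatinSquare {T : Type*} (m : T → T → T) : Set (Fin 3 → T) := {c | c 2 = m (c 0) (c 1)}

/-- Isotopic operations. -/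
def Isotopic {T S : Type*} (m : T → T → T) (n : S → S → S) : Prop :=
  ∃ α β γ : T ≃ S, ∀ x y, γ (m x y) = n (α x) (β y)

/-- A paratopism: a bijection is applied to each coordinate, then the three coordinates are
permuted. -/
def IsParatopism {T : Type*} (p : (Fin 3 → T) → (Fin 3 → T)) : Prop :=
  ∃ (θ : Fin 3 → Equiv.Perm T) (σ : Equiv.Perm (Fin 3)), ∀ c i, p c i = θ (σ i) (c (σ i))

/-- An autoparatopism: a paratopism that maps the Latin square onto itself. -/
def IsAutoparatopism {T : Type*} (m : T → T → T) (p : (Fin 3 → T) → (Fin 3 → T)) : Prop :=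
  IsParatopism p ∧ p '' LatinSquare m = LatinSquare m

/-- The autoparatopism group acts primitively on the cells: it is transitive, and the only
equivalence relations on the cells that it preserves are equality and the full relation. -/
def PrimitiveOnCells {T : Type*} (m : T → T → T) : Prop :=
  (∀ c ∈ LatinSquare m, ∀ d ∈ LatinSquare m, ∃ p, IsAutoparatopism m p ∧ p c = d) ∧
  ∀ r : Setoid (LatinSquare m),
    (∀ p, IsAutoparatopism m p → ∀ c c' d d' : LatinSquare m, p c = d → p c' = d' →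
      r c c' → r d d') → r = ⊥ ∨ r = ⊤

/-- Moufang loops: quasigroups with a neutral element that satisfy `x(y(xz)) = ((xy)x)z`. -/
def IsMoufangLoop {M : Type*} (n : M → M → M) : Prop :=
  IsQuasigroup n ∧ (∃ e, ∀ x, n e x = x ∧ n x e = x) ∧
    ∀ x y z, n x (n y (n x z)) = n (n (n x y) x) z

/-! ### Paige loops -/

/-- Zorn vector matrices over `F`: the split octonion algebra. -/
@[ext] structure Zorn (F : Type u) where
  a : F
  b : F
  x : Fin 3 → F
  y : Fin 3 → F

section zorn

variable {F : Type u} [Field F]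

/-- The product of the split octonion algebra. -/
def Zorn.mul (s t : Zorn F) : Zorn F where
  a := s.a * t.a + s.x ⬝ᵥ t.y
  b := s.b * t.b + s.y ⬝ᵥ t.x
  x := s.a • t.x + t.b • s.x - crossProduct s.y t.y
  y := t.a • s.y + s.b • t.y + crossProduct s.x t.x

/-- The norm of the split octonion algebra. -/
def Zorn.norm (s : Zorn F) : F := s.a * s.b - s.x ⬝ᵥ s.y

/-- The negative of an element. -/
def Zorn.neg (s : Zorn F) : Zorn F := ⟨-s.a, -s.b, -s.x, -s.y⟩

theorem Zorn.norm_mul (s t : Zorn F) : (s.mul t).norm = s.norm * t.norm := by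
  simp only [Zorn.mul, Zorn.norm, cross_apply, dotProduct, Fin.sum_univ_three,
    Pi.add_apply, Pi.sub_apply, Pi.smul_apply, smul_eq_mul, Matrix.cons_val_zero,
    Matrix.cons_val_one, Matrix.cons_val]
  ring

theorem Zorn.neg_mul (s t : Zorn F) : s.neg.mul t = (s.mul t).neg := by
  apply Zorn.ext
  · simp [Zorn.mul, Zorn.neg]; ring
  · simp [Zorn.mul, Zorn.neg]; ring
  · ext i
    fin_cases i <;> simp [Zorn.mul, Zorn.neg, cross_apply] <;> ring
  · ext i
    fin_cases i <;> simp [Zorn.mul, Zorn.neg, cross_apply] <;> ring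

theorem Zorn.mul_neg (s t : Zorn F) : s.mul t.neg = (s.mul t).neg := by
  apply Zorn.ext
  · simp [Zorn.mul, Zorn.neg]; ring
  · simp [Zorn.mul, Zorn.neg]; ring
  · ext i
    fin_cases i <;> simp [Zorn.mul, Zorn.neg, cross_apply] <;> ring
  · ext i
    fin_cases i <;> simp [Zorn.mul, Zorn.neg, cross_apply] <;> ring

theorem Zorn.neg_neg (s : Zorn F) : s.neg.neg = s := by
  ext i <;> simp [Zorn.neg]

variable (F) in
/-- The elements of norm one. -/
def NormOne : Type u := {s : Zorn F // s.norm = 1}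

variable (F) in
/-- Elements of norm one are identified with their negatives. -/
def signSetoid : Setoid (NormOne F) where
  r s t := s.1 = t.1 ∨ s.1 = t.1.neg
  iseqv := by
    refine ⟨fun s => Or.inl rfl, ?_, ?_⟩
    · rintro s t (h | h)
      · exact Or.inl h.symm
      · exact Or.inr (by rw [h, Zorn.neg_neg])
    · rintro s t w (h | h) (k | k)
      · exact Or.inl (h.trans k)
      · exact Or.inr (h.trans k)
      · exact Or.inr (by rw [h, k])
      · exact Or.inl (by rw [h, k, Zorn.neg_neg])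

variable (F) in
/-- The Paige loop of `F` (for a finite field `F`): the elements of norm one of the split octonion
algebra modulo the centre. -/
def Paige : Type u := Quotient (signSetoid F)

variable (F) in
/-- The operation of the Paige loop. -/
def paigeMul : Paige F → Paige F → Paige F :=
  Quotient.map₂ (sa := signSetoid F) (sb := signSetoid F) (sc := signSetoid F)
    (fun s t => ⟨s.1.mul t.1, by rw [Zorn.norm_mul, s.2, t.2, one_mul]⟩) (by
      rintro ⟨s, hs⟩ ⟨s', hs'⟩ h ⟨t, ht⟩ ⟨t', ht'⟩ k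
      change s = s' ∨ s = s'.neg at h
      change t = t' ∨ t = t'.neg at k
      change s.mul t = s'.mul t' ∨ s.mul t = (s'.mul t').neg
      rcases h with rfl | rfl <;> rcases k with rfl | rfl
      · exact Or.inl rfl
      · exact Or.inr (Zorn.mul_neg _ _)
      · exact Or.inr (Zorn.neg_mul _ _)
      · exact Or.inl (by rw [Zorn.mul_neg, Zorn.neg_mul, Zorn.neg_neg]))

end zorn

open Pool.Agent.W454.Prim

/-! ### The base net -/

/-- The eight cells of the base net (row, column, symbol). -/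
def base8 : List (ℕ × ℕ × ℕ) :=
  [(0, 0, 0), (1, 1, 0), (0, 1, 1), (2, 0, 1), (0, 2, 2), (1, 3, 2), (0, 3, 3), (2, 2, 4)]

/-- The cells of the base net as triples of points. -/
def baseCells : List (Pool.Agent.W454.Prim.U × Pool.Agent.W454.Prim.U × Pool.Agent.W454.Prim.U) :=
  (base8.map fun t => (((0 : ZMod 3), t.1), ((1 : ZMod 3), t.2.1), ((2 : ZMod 3), t.2.2))) ++
  (base8.map fun t => (((1 : ZMod 3), t.2.1), ((2 : ZMod 3), t.2.2), ((0 : ZMod 3), t.1))) ++
  (base8.map fun t => (((2 : ZMod 3), t.2.2), ((0 : ZMod 3), t.1), ((1 : ZMod 3), t.2.1)))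

/-- The base net. -/
def base : Net where
  P := {x | ∃ t ∈ baseCells, t.1 = x}
  fin := by
    have : {x | ∃ t ∈ baseCells, t.1 = x} = Prod.fst '' {t | t ∈ baseCells} := rfl
    rw [this]
    exact (List.finite_toSet baseCells).image _
  cell := fun x y z => (x, y, z) ∈ baseCells
  mem := fun {x y z} h => ⟨_, h, rfl⟩
  col := fun {x y z} h => by
    have : ∀ t ∈ baseCells, t.2.1.1 = t.1.1 + 1 := by decide
    exact this _ h
  rot := fun {x y z} h => by
    have : ∀ t ∈ baseCells, (t.2.1, t.2.2, t.1) ∈ baseCells := by decide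
    exact this _ h
  uniq := fun {x y z z'} h h' => by
    have : ∀ t ∈ baseCells, ∀ t' ∈ baseCells, t.1 = t'.1 → t.2.1 = t'.2.1 → t.2.2 = t'.2.2 := by
      decide
    exact this _ h _ h' rfl rfl

theorem base_mem {x y z : Pool.Agent.W454.Prim.U} (h : (x, y, z) ∈ baseCells) :
    cellT base x y z := ⟨0, h⟩

/-- Numbering of the points of each colour. -/
theorem exists_zeta : Nonempty (∀ i : ZMod 3,
    ℕ ≃ {x : Pool.Agent.W454.Prim.U // x ∈ T base ∧ x.1 = i}) := by
  have h : ∀ i : ZMod 3, Nonempty (ℕ ≃ {x : Pool.Agent.W454.Prim.U // x ∈ T base ∧ x.1 = i}) := by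
    intro i
    have hu : ∃ u ∈ T base, u.1 = i := by
      have h0 : cellT base (0, 0) (1, 0) (2, 0) := base_mem (by decide)
      fin_cases i
      · exact ⟨(0, 0), cellT_mem h0, rfl⟩
      · exact ⟨(1, 0), cellT_mem (cellT_rot h0), rfl⟩
      · exact ⟨(2, 0), cellT_mem (cellT_rot (cellT_rot h0)), rfl⟩
    obtain ⟨u, hu, rfl⟩ := hu
    have hinf : Infinite {x : Pool.Agent.W454.Prim.U // x ∈ T base ∧ x.1 = u.1} :=
      (infinite_color hu).to_subtype
    exact nonempty_equiv_of_countable
  exact ⟨fun i => Classical.choice (h i)⟩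

section final

variable (ζ : ∀ i : ZMod 3, ℕ ≃ {x : Pool.Agent.W454.Prim.U // x ∈ T base ∧ x.1 = i})

/-- The points of a triple of numbers. -/
def Z (c : ZMod 3 → ℕ) (i : ZMod 3) : Pool.Agent.W454.Prim.U := (ζ i (c i)).1

theorem Z_col (c : ZMod 3 → ℕ) (i : ZMod 3) : (Z ζ c i).1 = i := (ζ i (c i)).2.2
theorem Z_mem (c : ZMod 3 → ℕ) (i : ZMod 3) : Z ζ c i ∈ T base := (ζ i (c i)).2.1

theorem Z_inj {c d : ZMod 3 → ℕ} {i : ZMod 3} (h : Z ζ c i = Z ζ d i) : c i = d i :=
  (ζ i).injective (Subtype.ext h)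

theorem exists_third (a b : ℕ) : ∃ n : ℕ, cellT base (ζ 0 a).1 (ζ 1 b).1 (ζ 2 n).1 := by
  obtain ⟨z, hz⟩ := cellT_complete (ζ 0 a).2.1 (ζ 1 b).2.1 (by
    rw [(ζ 0 a).2.2, (ζ 1 b).2.2]; rfl)
  have hz2 : z ∈ T base := cellT_mem (cellT_rot (cellT_rot hz))
  have hz3 : z.1 = 2 := by
    rw [cellT_col (cellT_rot hz), (ζ 1 b).2.2]; rfl
  refine ⟨(ζ 2).symm ⟨z, hz2, hz3⟩, ?_⟩
  rw [Equiv.apply_symm_apply]
  exact hz

/-- The quasigroup operation. -/
noncomputable def op (a b : ℕ) : ℕ := Classical.choose (exists_third ζ a b)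

theorem op_cell (a b : ℕ) : cellT base (ζ 0 a).1 (ζ 1 b).1 (ζ 2 (op ζ a b)).1 :=
  Classical.choose_spec (exists_third ζ a b)

theorem op_iff (a b c : ℕ) :
    op ζ a b = c ↔ cellT base (ζ 0 a).1 (ζ 1 b).1 (ζ 2 c).1 := by
  constructor
  · rintro rfl
    exact op_cell ζ a b
  · intro h
    exact (ζ 2).injective (Subtype.ext (cellT_uniq (op_cell ζ a b) h))

theorem op_quasigroup : IsQuasigroup (op ζ) := by
  intro a b
  constructor
  · obtain ⟨z, hz⟩ := cellT_complete (N₀ := base) (ζ 2 b).2.1 (ζ 0 a).2.1 (by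
      rw [(ζ 0 a).2.2, (ζ 2 b).2.2]; rfl)
    have hz2 : z ∈ T base := cellT_mem (cellT_rot (cellT_rot hz))
    have hz3 : z.1 = 1 := by
      rw [cellT_col (cellT_rot hz), (ζ 0 a).2.2]; rfl
    refine ⟨(ζ 1).symm ⟨z, hz2, hz3⟩, ?_, ?_⟩
    · change op ζ a _ = b
      rw [op_iff, Equiv.apply_symm_apply]
      exact cellT_rot hz
    · intro y hy
      change op ζ a y = b at hy
      rw [op_iff] at hy
      rw [Equiv.eq_symm_apply]
      exact Subtype.ext (cellT_uniq (cellT_rot (cellT_rot hy)) hz)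
  · obtain ⟨z, hz⟩ := cellT_complete (N₀ := base) (ζ 1 a).2.1 (ζ 2 b).2.1 (by
      rw [(ζ 1 a).2.2, (ζ 2 b).2.2]; rfl)
    have hz2 : z ∈ T base := cellT_mem (cellT_rot (cellT_rot hz))
    have hz3 : z.1 = 0 := by
      rw [cellT_col (cellT_rot hz), (ζ 2 b).2.2]; rfl
    refine ⟨(ζ 0).symm ⟨z, hz2, hz3⟩, ?_, ?_⟩
    · change op ζ _ a = b
      rw [op_iff, Equiv.apply_symm_apply]
      exact cellT_rot (cellT_rot hz)
    · intro y hy
      change op ζ y a = b at hy
      rw [op_iff] at hy
      rw [Equiv.eq_symm_apply]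
      exact Subtype.ext (cellT_uniq (cellT_rot hy) hz)

/-! ### Not isotopic to Moufang loops -/

/-- The closure condition. -/
theorem moufang_closure {M : Type*} {n : M → M → M} (h : IsMoufangLoop n) (a b : M) :
    ∃ c, ∀ y y', n b y' = n a y → n c y = n a y' := by
  obtain ⟨hq, ⟨e, he⟩, hm⟩ := h
  obtain ⟨b', hb', _⟩ := (hq b e).1
  -- `b (b' y) = y`
  have key : ∀ y, n b (n b' y) = y := by
    intro y
    obtain ⟨z, hz, _⟩ := (hq b y).1
    have h1 := hm b b' z
    rw [hb', (he b).1] at h1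
    change n b z = y at hz
    rw [hz] at h1
    exact h1
  have key2 : ∀ y, n b' (n b y) = y := by
    intro y
    have h1 := key (n b y)
    exact ((hq b (n b y)).1).unique h1 rfl
  refine ⟨n (n a b') a, fun y y' hy => ?_⟩
  rw [← hm, ← hy, key2]

theorem not_isotopic_moufang {M : Type*} {n : M → M → M} (h : IsMoufangLoop n) :
    ¬ Isotopic (op ζ) n := by
  rintro ⟨α, β, γ, hab⟩
  -- transport the closure condition
  have clo : ∀ a b : ℕ, ∃ c, ∀ y y', op ζ b y' = op ζ a y → op ζ c y = op ζ a y' := by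
    intro a b
    obtain ⟨c, hc⟩ := moufang_closure h (α a) (α b)
    refine ⟨α.symm c, fun y y' hy => γ.injective ?_⟩
    rw [hab, hab, Equiv.apply_symm_apply]
    apply hc
    rw [← hab, ← hab, hy]
  have m : ∀ {x y z : Pool.Agent.W454.Prim.U}, (x, y, z) ∈ baseCells → x ∈ T base :=
    fun h => cellT_mem (base_mem h)
  -- numbers of the points
  have num : ∀ {i : ZMod 3} {x : Pool.Agent.W454.Prim.U} (hx : x ∈ T base) (hi : x.1 = i),
      ∃ k, (ζ i k).1 = x := by
    intro i x hx hi
    exact ⟨(ζ i).symm ⟨x, hx, hi⟩, by rw [Equiv.apply_symm_apply]⟩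
  have c1 : cellT base (0, 0) (1, 0) (2, 0) := base_mem (by decide)
  have c2 : cellT base (0, 1) (1, 1) (2, 0) := base_mem (by decide)
  have c3 : cellT base (0, 0) (1, 1) (2, 1) := base_mem (by decide)
  have c4 : cellT base (0, 2) (1, 0) (2, 1) := base_mem (by decide)
  have c5 : cellT base (0, 0) (1, 2) (2, 2) := base_mem (by decide)
  have c6 : cellT base (0, 1) (1, 3) (2, 2) := base_mem (by decide)
  have c7 : cellT base (0, 0) (1, 3) (2, 3) := base_mem (by decide)
  have c8 : cellT base (0, 2) (1, 2) (2, 4) := base_mem (by decide)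
  obtain ⟨a, ha⟩ := num (i := 0) (cellT_mem c1) rfl
  obtain ⟨b, hb⟩ := num (i := 0) (cellT_mem c2) rfl
  obtain ⟨c, hc⟩ := num (i := 0) (cellT_mem c4) rfl
  obtain ⟨y0, hy0⟩ := num (i := 1) (cellT_mem (cellT_rot c1)) rfl
  obtain ⟨y1, hy1⟩ := num (i := 1) (cellT_mem (cellT_rot c2)) rfl
  obtain ⟨y2, hy2⟩ := num (i := 1) (cellT_mem (cellT_rot c5)) rfl
  obtain ⟨y3, hy3⟩ := num (i := 1) (cellT_mem (cellT_rot c6)) rfl
  obtain ⟨s0, hs0⟩ := num (i := 2) (cellT_mem (cellT_rot (cellT_rot c1))) rfl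
  obtain ⟨s1, hs1⟩ := num (i := 2) (cellT_mem (cellT_rot (cellT_rot c3))) rfl
  obtain ⟨s2, hs2⟩ := num (i := 2) (cellT_mem (cellT_rot (cellT_rot c5))) rfl
  obtain ⟨s3, hs3⟩ := num (i := 2) (cellT_mem (cellT_rot (cellT_rot c7))) rfl
  obtain ⟨s4, hs4⟩ := num (i := 2) (cellT_mem (cellT_rot (cellT_rot c8))) rfl
  have d1 : op ζ a y0 = s0 := by rw [op_iff, ha, hy0, hs0]; exact c1
  have d2 : op ζ b y1 = s0 := by rw [op_iff, hb, hy1, hs0]; exact c2
  have d3 : op ζ a y1 = s1 := by rw [op_iff, ha, hy1, hs1]; exact c3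
  have d4 : op ζ c y0 = s1 := by rw [op_iff, hc, hy0, hs1]; exact c4
  have d5 : op ζ a y2 = s2 := by rw [op_iff, ha, hy2, hs2]; exact c5
  have d6 : op ζ b y3 = s2 := by rw [op_iff, hb, hy3, hs2]; exact c6
  have d7 : op ζ a y3 = s3 := by rw [op_iff, ha, hy3, hs3]; exact c7
  have d8 : op ζ c y2 = s4 := by rw [op_iff, hc, hy2, hs4]; exact c8
  obtain ⟨c', hc'⟩ := clo a b
  have g1 := hc' y0 y1 (d2.trans d1.symm)
  rw [d3] at g1
  have g2 : c' = c := ((op_quasigroup ζ y0 s1).2).unique g1 d4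
  have g3 := hc' y2 y3 (d6.trans d5.symm)
  rw [g2, d8, d7] at g3
  rw [g3, hs3] at hs4
  exact absurd hs4 (by decide)

theorem not_isotopic_group {G : Type*} [Group G] :
    ¬ Isotopic (op ζ) (fun x y : G => x * y) := by
  refine not_isotopic_moufang ζ ⟨?_, ⟨1, fun x => ⟨one_mul x, mul_one x⟩⟩, ?_⟩
  · intro a b
    refine ⟨⟨a⁻¹ * b, by simp, ?_⟩, ⟨b * a⁻¹, by simp, ?_⟩⟩
    · rintro y rfl
      simp
    · rintro y rfl
      simp
  · intro x y z
    simp [mul_assoc]

theorem not_isotopic_paige {F : Type*} [Field F] [Finite F] : ¬ Isotopic (op ζ) (paigeMul F) := by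
  rintro ⟨α, _, _, _⟩
  have h1 : Finite (Zorn F) := by
    refine Finite.of_injective (β := F × F × (Fin 3 → F) × (Fin 3 → F))
      (fun s => (s.a, s.b, s.x, s.y)) ?_
    intro s t h
    simp only [Prod.mk.injEq] at h
    exact Zorn.ext h.1 h.2.1 h.2.2.1 h.2.2.2
  have h2 : Finite (NormOne F) := Subtype.finite
  have h3 : Finite (Paige F) := Quotient.finite _
  exact not_finite_iff_infinite.2 inferInstance (Finite.of_equiv _ α.symm : Finite ℕ)

/-! ### Autoparatopisms -/

theorem mem_iff (c : ZMod 3 → ℕ) :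
    c ∈ LatinSquare (T := ℕ) (op ζ) ↔ cellT base (Z ζ c 0) (Z ζ c 1) (Z ζ c 2) := by
  have : (c ∈ LatinSquare (T := ℕ) (op ζ)) ↔ op ζ (c 0) (c 1) = c 2 := eq_comm
  rw [this, op_iff]
  rfl

theorem mem_iff' (c : ZMod 3 → ℕ) (i : ZMod 3) :
    c ∈ LatinSquare (T := ℕ) (op ζ) ↔
      cellT base (Z ζ c i) (Z ζ c (i + 1)) (Z ζ c (i + 1 + 1)) := by
  rw [mem_iff]
  fin_cases i
  · exact Iff.rfl
  · exact ⟨fun h => cellT_rot h, fun h => cellT_rot (cellT_rot h)⟩
  · exact ⟨fun h => cellT_rot (cellT_rot h), fun h => cellT_rot h⟩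

/-- An automorphism of the net gives an autoparatopism. -/
theorem exists_autoparatopism {s : ZMod 3} {h : Set (Pool.Agent.W454.Prim.U ×
    Pool.Agent.W454.Prim.U)} (ha : Auto base s h) :
    ∃ p : (Fin 3 → ℕ) → (Fin 3 → ℕ), IsAutoparatopism (op ζ) p ∧
      ∀ (c : ZMod 3 → ℕ) (i : ZMod 3), (Z ζ c i, Z ζ (p c) (i + s)) ∈ h := by
  have hθ : ∀ (i : ZMod 3) (a : ℕ), ∃ b : ℕ, ((ζ i a).1, (ζ (i + s) b).1) ∈ h := by
    intro i a
    obtain ⟨x', hx'⟩ := ha.total (ζ i a).2.1
    have hc := ha.col hx'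
    rw [(ζ i a).2.2] at hc
    exact ⟨(ζ (i + s)).symm ⟨x', ha.rng hx', hc⟩, by rw [Equiv.apply_symm_apply]; exact hx'⟩
  choose θ hθ using hθ
  have hinj : ∀ i, Function.Injective (θ i) := by
    intro i a b hab
    have h1 := hθ i a
    rw [hab] at h1
    exact (ζ i).injective (Subtype.ext (ha.inj h1 (hθ i b)))
  have hsurj : ∀ i, Function.Surjective (θ i) := by
    intro i b
    obtain ⟨x, hx⟩ := ha.surj (ζ (i + s) b).2.1
    have hc := ha.col hx
    rw [(ζ (i + s) b).2.2] at hc
    have hc' : x.1 = i := (add_right_cancel hc).symm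
    refine ⟨(ζ i).symm ⟨x, ha.dom hx, hc'⟩, ?_⟩
    have h1 := hθ i ((ζ i).symm ⟨x, ha.dom hx, hc'⟩)
    rw [Equiv.apply_symm_apply] at h1
    exact (ζ (i + s)).injective (Subtype.ext (ha.func h1 hx))
  let Θ : ZMod 3 → Equiv.Perm ℕ := fun i => Equiv.ofBijective (θ i) ⟨hinj i, hsurj i⟩
  let p : (ZMod 3 → ℕ) → (ZMod 3 → ℕ) := fun c i => Θ (i - s) (c (i - s))
  have hp : ∀ (c : ZMod 3 → ℕ) (i : ZMod 3), (Z ζ c i, Z ζ (p c) (i + s)) ∈ h := by
    intro c i
    have : p c (i + s) = θ i (c i) := by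
      change θ (i + s - s) (c (i + s - s)) = _
      rw [add_sub_cancel_right]
    unfold Z
    rw [this]
    exact hθ i (c i)
  refine ⟨p, ⟨⟨Θ, Equiv.subRight s, fun c i => rfl⟩, ?_⟩, hp⟩
  have hmem : ∀ c : ZMod 3 → ℕ, p c ∈ LatinSquare (T := ℕ) (op ζ) ↔
      c ∈ LatinSquare (T := ℕ) (op ζ) := by
    intro c
    rw [mem_iff' ζ (p c) s, mem_iff ζ c]
    have e0 := hp c 0
    have e1 := hp c 1
    have e2 := hp c 2
    rw [show (0 : ZMod 3) + s = s by ring] at e0
    rw [show (1 : ZMod 3) + s = s + 1 by ring] at e1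
    rw [show (2 : ZMod 3) + s = s + 1 + 1 by ring] at e2
    exact ⟨fun hc => ha.bwd e0 e1 e2 hc, fun hc => ha.fwd e0 e1 e2 hc⟩
  ext d
  constructor
  · rintro ⟨c, hc, rfl⟩
    exact (hmem c).2 hc
  · intro hd
    have : ∃ c : ZMod 3 → ℕ, p c = d := by
      refine ⟨fun i => (Θ i).symm (d (i + s)), ?_⟩
      funext i
      change Θ (i - s) ((Θ (i - s)).symm (d (i - s + s))) = d i
      rw [Equiv.apply_symm_apply, sub_add_cancel]
    obtain ⟨c, rfl⟩ := this
    exact ⟨c, (hmem c).1 hd, rfl⟩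

/-- The autoparatopism group of the quasigroup is primitive on the cells. -/
theorem op_primitive : PrimitiveOnCells (op ζ) := by
  constructor
  · intro c hc d hd
    have hc' := (mem_iff ζ c).1 hc
    have hd' := (mem_iff ζ d).1 hd
    obtain ⟨s, g, hg, h0, h1, h2⟩ := transitive hc' hd'
    obtain ⟨p, hp1, hp2⟩ := exists_autoparatopism ζ hg
    refine ⟨p, hp1, ?_⟩
    have hs : s = 0 := by
      have h3 := hg.col h0
      have h4 : (Z ζ d 0).1 = 0 := Z_col ζ d 0
      have h5 : (Z ζ c 0).1 = 0 := Z_col ζ c 0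
      have h6 : (0 : ZMod 3) = 0 + s := (h4.symm.trans h3).trans (congrArg (· + s) h5)
      simpa using h6.symm
    subst hs
    have e : ∀ i : ZMod 3, (Z ζ c i, Z ζ d i) ∈ g := by
      intro i
      fin_cases i
      · exact h0
      · exact h1
      · exact h2
    have e' : ∀ i : ZMod 3, p c i = d i := by
      intro i
      have e1 := hp2 c i
      rw [add_zero] at e1
      exact Z_inj ζ (hg.func e1 (e i))
    exact funext e'
  · intro r hr
    by_cases hbot : ∀ c d, r c d → c = d
    · left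
      ext c d
      exact ⟨fun h => hbot c d h, fun h => by
        change c = d at h
        subst h
        exact r.refl' c⟩
    right
    push Not at hbot
    obtain ⟨c₀, d₀, hcd, hne⟩ := hbot
    -- the relation on triples of points
    let mt : LatinSquare (T := ℕ) (op ζ) → Pool.Agent.W454.Prim.U × Pool.Agent.W454.Prim.U ×
        Pool.Agent.W454.Prim.U → Prop := fun c t =>
      ∃ i : ZMod 3, t = (Z ζ c.1 i, Z ζ c.1 (i + 1), Z ζ c.1 (i + 1 + 1))
    have mt_uniq : ∀ {c d t}, mt c t → mt d t → c = d := by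
      rintro c d t ⟨i, hi⟩ ⟨j, hj⟩
      have hij := hi.symm.trans hj
      simp only [Prod.mk.injEq] at hij
      obtain ⟨e1, e2, e3⟩ := hij
      have hc : i = j :=
        (Z_col ζ c.1 i).symm.trans ((congrArg Prod.fst e1).trans (Z_col ζ d.1 j))
      subst hc
      have f1 := Z_inj ζ e1
      have f2 := Z_inj ζ e2
      have f3 := Z_inj ζ e3
      apply Subtype.ext
      funext k
      fin_cases i <;> fin_cases k <;> first | exact f1 | exact f2 | exact f3
    let E : Pool.Agent.W454.Prim.U × Pool.Agent.W454.Prim.U × Pool.Agent.W454.Prim.U →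
        Pool.Agent.W454.Prim.U × Pool.Agent.W454.Prim.U × Pool.Agent.W454.Prim.U → Prop :=
      fun t t' => ∃ c d, mt c t ∧ mt d t' ∧ r c d
    have three : ∀ i : ZMod 3, i + 1 + 1 + 1 = i := by decide
    have hE : InvRel base E := by
      refine ⟨?_, ?_, ?_, ?_⟩
      · rintro t t' ⟨c, d, h1, h2, h3⟩
        exact ⟨d, c, h2, h1, r.symm' h3⟩
      · rintro t t' t'' ⟨c, d, h1, h2, h3⟩ ⟨c', d', h4, h5, h6⟩
        have := mt_uniq h2 h4
        subst this
        exact ⟨c, d', h1, h5, r.trans' h3 h6⟩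
      · intro x y z hxyz
        -- the cell with the given points
        have hy := cellT_col hxyz
        have hz := cellT_col (cellT_rot hxyz)
        have hex : ∃ c : ZMod 3 → ℕ, Z ζ c x.1 = x ∧ Z ζ c (x.1 + 1) = y ∧
            Z ζ c (x.1 + 1 + 1) = z := by
          have hx' := cellT_mem hxyz
          have hy' := cellT_mem (cellT_rot hxyz)
          have hz' := cellT_mem (cellT_rot (cellT_rot hxyz))
          let w : ZMod 3 → Pool.Agent.W454.Prim.U := fun i =>
            if i = x.1 then x else if i = x.1 + 1 then y else z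
          have hw : ∀ i, w i ∈ T base ∧ (w i).1 = i := by
            intro i
            simp only [w]
            split_ifs with h1 h2
            · exact ⟨hx', h1.symm⟩
            · exact ⟨hy', by rw [hy, h2]⟩
            · refine ⟨hz', ?_⟩
              rw [hz, hy]
              revert h1 h2
              generalize x.1 = a
              revert a i
              decide
          refine ⟨fun i => (ζ i).symm ⟨w i, hw i⟩, ?_, ?_, ?_⟩
          · unfold Z
            rw [Equiv.apply_symm_apply]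
            simp [w]
          · unfold Z
            rw [Equiv.apply_symm_apply]
            have : ∀ a : ZMod 3, a + 1 ≠ a := by decide
            simp [w]
          · unfold Z
            rw [Equiv.apply_symm_apply]
            have h1 : ∀ a : ZMod 3, a + 1 + 1 ≠ a := by decide
            have h2 : ∀ a : ZMod 3, a + 1 + 1 ≠ a + 1 := by decide
            simp only [w]
            rw [if_neg (h1 _), if_neg (h2 _)]
        obtain ⟨c, h1, h2, h3⟩ := hex
        have hc : c ∈ LatinSquare (T := ℕ) (op ζ) := by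
          rw [mem_iff' ζ c x.1, h1, h2, h3]
          exact hxyz
        refine ⟨⟨c, hc⟩, ⟨c, hc⟩, ⟨x.1, ?_⟩, ⟨x.1 + 1, ?_⟩, r.refl' _⟩
        · simp only [h1, h2, h3]
        · rw [three]
          simp only [h1, h2, h3]
      · rintro s h hA x y z a b c x' y' z' a' b' c' gx gy gz ga gb gc hxyz habc
          ⟨C, D, ⟨i, hi⟩, ⟨j, hj⟩, hr'⟩
        obtain ⟨p, hp1, hp2⟩ := exists_autoparatopism ζ hA
        have hpC : p C.1 ∈ LatinSquare (T := ℕ) (op ζ) :=
          (Set.ext_iff.1 hp1.2 (p C.1)).1 ⟨C.1, C.2, rfl⟩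
        have hpD : p D.1 ∈ LatinSquare (T := ℕ) (op ζ) :=
          (Set.ext_iff.1 hp1.2 (p D.1)).1 ⟨D.1, D.2, rfl⟩
        refine ⟨⟨_, hpC⟩, ⟨_, hpD⟩, ⟨i + s, ?_⟩, ⟨j + s, ?_⟩, hr p hp1 C D _ _ rfl rfl hr'⟩
        · simp only [Prod.mk.injEq] at hi ⊢
          obtain ⟨rfl, rfl, rfl⟩ := hi
          refine ⟨hA.func gx (hp2 _ _), ?_, ?_⟩
          · rw [add_right_comm]; exact hA.func gy (hp2 _ _)
          · rw [add_right_comm i s 1, add_right_comm (i + 1) s 1]; exact hA.func gz (hp2 _ _)
        · simp only [Prod.mk.injEq] at hj ⊢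
          obtain ⟨rfl, rfl, rfl⟩ := hj
          refine ⟨hA.func ga (hp2 _ _), ?_, ?_⟩
          · rw [add_right_comm]; exact hA.func gb (hp2 _ _)
          · rw [add_right_comm j s 1, add_right_comm (j + 1) s 1]; exact hA.func gc (hp2 _ _)
    have hcell : ∀ c : LatinSquare (T := ℕ) (op ζ),
        cellT base (Z ζ c.1 0) (Z ζ c.1 1) (Z ζ c.1 2) := fun c => (mem_iff ζ c.1).1 c.2
    have mt0 : ∀ c : LatinSquare (T := ℕ) (op ζ), mt c (Z ζ c.1 0, Z ζ c.1 1, Z ζ c.1 2) :=
      fun c => ⟨0, rfl⟩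
    have hstart : E (Z ζ c₀.1 0, Z ζ c₀.1 1, Z ζ c₀.1 2) (Z ζ d₀.1 0, Z ζ d₀.1 1, Z ζ d₀.1 2) :=
      ⟨c₀, d₀, mt0 _, mt0 _, hcd⟩
    have hne' : (Z ζ c₀.1 0, Z ζ c₀.1 1, Z ζ c₀.1 2) ≠ (Z ζ d₀.1 0, Z ζ d₀.1 1, Z ζ d₀.1 2) := by
      intro e
      have := mt0 c₀
      rw [e] at this
      exact hne (mt_uniq this (mt0 d₀))
    ext c d
    refine ⟨fun _ => trivial, fun _ => ?_⟩
    obtain ⟨c', d', h1, h2, h3⟩ := primitive hE (hcell c₀) (hcell d₀)
      ((Z_col ζ c₀.1 0).trans (Z_col ζ d₀.1 0).symm) hne' hstart (hcell c) (hcell d)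
      ((Z_col ζ c.1 0).trans (Z_col ζ d.1 0).symm)
    rw [mt_uniq (mt0 c) h1, mt_uniq (mt0 d) h2]
    exact h3

end final

/-- There is a quasigroup operation on the natural numbers that is isotopic to no group, to no
Paige loop, and even to no Moufang loop, and whose autoparatopism group acts primitively on the
cells of its Latin square. -/
theorem result : ∃ m : ℕ → ℕ → ℕ, IsQuasigroup m ∧
    (∀ (G : Type u) [Group G], ¬ Isotopic m (fun x y : G => x * y)) ∧
    (∀ (F : Type u) [Field F] [Finite F], ¬ Isotopic m (paigeMul F)) ∧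
    (∀ (M : Type u) (n : M → M → M), IsMoufangLoop n → ¬ Isotopic m n) ∧
    PrimitiveOnCells m := by
  obtain ⟨ζ⟩ := exists_zeta
  exact ⟨op ζ, op_quasigroup ζ, fun G _ => not_isotopic_group ζ, fun F _ _ => not_isotopic_paige ζ,
    fun M n h => not_isotopic_moufang ζ h, op_primitive ζ⟩

end Pool.Agent.Results.MP_b62fd5_al.InfinitePrimitive
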